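import Mathlib
import Pool.Agent.MP_912f41_co.Main

/-! Regular maps on the non-orientable surface of Euler characteristic `-2 p`, `p > 83` prime. -/

set_option autoImplicit false

namespace Pool.Agent.MP_912f41_co.Old

open Pool.Agent.MP_912f41_co

theorem result (p : ℕ) (hp : p.Prime) (h83 : 83 < p) :
    (∀ (G : Type) [Group G] [Finite G] (r0 r1 r2 : G), Subgroup.closure {r0, r1, r2} = ⊤ →
      ((IsNonorMap r0 r1 r2 ∧ euler r0 r1 r2 = -2 * (p : ℤ)) ↔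
        ∃ τ : Fam, τ.ok p ∧ (τ.Model r0 r1 r2 ∨ τ.Model r2 r1 r0))) ∧
    (∀ τ : Fam, τ.ok p → ∃ (G : Type) (_ : Group G) (_ : Finite G) (r0 r1 r2 : G),
      Subgroup.closure {r0, r1, r2} = ⊤ ∧ τ.Model r0 r1 r2) ∧
    (∀ τ σ : Fam, τ.ok p → σ.ok p → ∀ (G : Type) [Group G] (r0 r1 r2 : G),
      Subgroup.closure {r0, r1, r2} = ⊤ → τ.Model r0 r1 r2 →
        (σ.Model r0 r1 r2 → σ = τ) ∧ ¬ σ.Model r2 r1 r0) ∧
    (∀ (τ : Fam) (G G' : Type) [Group G] [Group G'] (r0 r1 r2 : G) (s0 s1 s2 : G'),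
      Subgroup.closure {r0, r1, r2} = ⊤ → Subgroup.closure {s0, s1, s2} = ⊤ →
      τ.Model r0 r1 r2 → τ.Model s0 s1 s2 →
        ∃ e : G ≃* G', e r0 = s0 ∧ e r1 = s1 ∧ e r2 = s2) := by
  refine ⟨fun G _ _ a b c gen => ⟨fun h => classify (nm_iff.1 h.1) hp h83 h.2, ?_⟩,
    fun τ h => ?_, fun τ σ h h' G _ a b c gen hM => unique h h' hp (by omega) gen hM,
    fun τ G G' _ _ a b c a' b' c' gen gen' h h' => ?_⟩
  · rintro ⟨τ, h, hM | hM⟩
    · exact (sound h hp (by omega) gen hM).imp_left nm_iff.2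
    · obtain ⟨m1, m2, m3⟩ := mem3 c b a
      obtain ⟨h1, h2⟩ := sound h hp (by omega) (gen_top gen m3 m2 m1) hM
      exact ⟨nm_iff.2 h1.dual, euler_dual a b c ▸ h2⟩
  · obtain ⟨jo, lo, co⟩ := h.good hp (by omega)
    cases τ <;> exact ⟨_, _, (model _ jo lo co (gen_sub _ _ _) (emb_self _ _ _)).1, _, _, _,
      gen_sub _ _ _, emb_self _ _ _⟩
  · cases τ <;> exact Emb.iso h gen h' gen'

end Pool.Agent.MP_912f41_co.Old
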